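import Mathlib

-- merged part: Pool.Agent.Work.MP_700ccb_an.C0
section
/-!
Basic facts on the space `c₀(ℕ × ℕ)` and the coefficients of its continuous functionals.
-/

set_option autoImplicit false

open Filter Topology
open scoped ZeroAtInfty

namespace Pool.Agent.Work.MP_700ccb_an

/-- The space `c₀(ℕ × ℕ)`. -/
abbrev Y : Type := C₀(ℕ × ℕ, ℝ)

lemma tendsto_cofinite (x : Y) : Tendsto x cofinite (𝓝 0) := by
  have h := zero_at_infty x
  rwa [cocompact_eq_cofinite] at h

lemma abs_apply_le (x : Y) (i : ℕ × ℕ) : |x i| ≤ ‖x‖ := by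
  have h := BoundedContinuousFunction.norm_coe_le_norm x.toBCF i
  rw [ZeroAtInftyContinuousMap.norm_toBCF_eq_norm] at h
  simpa using h

lemma norm_le_of (x : Y) {c : ℝ} (hc : 0 ≤ c) (h : ∀ i, |x i| ≤ c) : ‖x‖ ≤ c := by
  rw [← ZeroAtInftyContinuousMap.norm_toBCF_eq_norm]
  exact (BoundedContinuousFunction.norm_le hc).2 (fun i => by simpa using h i)

/-- The unit vectors. -/
noncomputable def e (i : ℕ × ℕ) : Y where
  toFun := fun j => if j = i then 1 else 0
  continuous_toFun := continuous_of_discreteTopology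
  zero_at_infty' := by
    rw [cocompact_eq_cofinite]
    refine tendsto_const_nhds.congr' ?_
    have : ∀ᶠ j in cofinite, j ≠ i := eventually_cofinite_ne i
    filter_upwards [this] with j hj
    simp [hj]

lemma e_apply (i j : ℕ × ℕ) : e i j = if j = i then 1 else 0 := rfl

/-- Evaluation at a point as a continuous linear functional. -/
noncomputable def ev (i : ℕ × ℕ) : Y →L[ℝ] ℝ :=
  LinearMap.mkContinuous
    { toFun := fun x => x i
      map_add' := fun x y => rfl
      map_smul' := fun c x => rfl } 1 (fun x => by simpa using abs_apply_le x i)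

@[simp] lemma ev_apply (i : ℕ × ℕ) (x : Y) : ev i x = x i := rfl

lemma sum_apply' (F : Finset (ℕ × ℕ)) (c : ℕ × ℕ → ℝ) (j : ℕ × ℕ) :
    (∑ i ∈ F, c i • e i) j = if j ∈ F then c j else 0 := by
  rw [← ev_apply, map_sum]
  simp only [map_smul, ev_apply, e_apply, smul_eq_mul, mul_ite, mul_one, mul_zero]
  rw [Finset.sum_ite_eq]

lemma hasSum_basis (x : Y) : HasSum (fun i => x i • e i) x := by
  rw [HasSum, SummationFilter.unconditional_filter, Metric.tendsto_atTop]
  intro ε hε
  have h1 : ∀ᶠ i in cofinite, |x i| < ε / 2 := by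
    have := (Metric.tendsto_nhds.1 (tendsto_cofinite x)) (ε / 2) (half_pos hε)
    simpa [Real.dist_eq] using this
  rw [eventually_cofinite] at h1
  refine ⟨h1.toFinset, fun F hF => ?_⟩
  rw [dist_eq_norm]
  refine lt_of_le_of_lt (norm_le_of _ (half_pos hε).le (fun j => ?_)) (half_lt_self hε)
  rw [ZeroAtInftyContinuousMap.sub_apply, sum_apply']
  split_ifs with hj
  · simpa using (half_pos hε).le
  · have : j ∉ h1.toFinset := fun h => hj (hF h)
    simp only [Set.Finite.mem_toFinset, Set.mem_ofPred_eq, not_not] at this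
    simpa using this.le

lemma hasSum_pairing (x : Y) (u : Y →L[ℝ] ℝ) : HasSum (fun i => x i * u (e i)) (u x) := by
  simpa using (hasSum_basis x).mapL u

lemma summable_coeff (u : Y →L[ℝ] ℝ) : Summable (fun i => u (e i)) := by
  refine Summable.of_abs ?_
  refine summable_of_sum_le (c := ‖u‖) (fun i => abs_nonneg _) (fun F => ?_)
  have h1 : ∑ i ∈ F, |u (e i)| = u (∑ i ∈ F, (SignType.sign (u (e i)) : ℝ) • e i) := by
    rw [map_sum]
    refine Finset.sum_congr rfl (fun i _ => ?_)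
    rw [map_smul, smul_eq_mul, sign_mul_self]
  rw [h1]
  have h2 : ‖∑ i ∈ F, (SignType.sign (u (e i)) : ℝ) • e i‖ ≤ 1 := by
    refine norm_le_of _ zero_le_one (fun j => ?_)
    rw [sum_apply' F (fun i => (SignType.sign (u (e i)) : ℝ))]
    split_ifs
    · rcases SignType.trichotomy (SignType.sign (u (e j))) with h | h | h <;> simp [h]
    · simp
  calc u (∑ i ∈ F, (SignType.sign (u (e i)) : ℝ) • e i)
      ≤ ‖u (∑ i ∈ F, (SignType.sign (u (e i)) : ℝ) • e i)‖ := le_abs_self _
    _ ≤ ‖u‖ * ‖∑ i ∈ F, (SignType.sign (u (e i)) : ℝ) • e i‖ := u.le_opNorm _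
    _ ≤ ‖u‖ * 1 := by gcongr
    _ = ‖u‖ := mul_one _

end Pool.Agent.Work.MP_700ccb_an
end

-- merged part: Pool.Agent.Work.MP_700ccb_an.Main
section
/-!
A maximally monotone operator `B` on `X = ℝ × c₀(ℕ × ℕ)` whose domain has a gap, and a rank one
monotone operator `A` such that `A + B` is not maximally monotone.

The linear relation `Rel` on `c₀(ℕ × ℕ) × ℓ¹(ℕ × ℕ)` is the graph of `y ↦ -S y`, where
`(S y)(m,n) = w m * (y(m,n) + 2 ∑_{k>n} y(m,k))`.  On it the duality pairing equals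
`-∑ w m * σ m ^ 2`, where `σ m` is the sum of row `m` of `y`.  The row sums form an `ℓ¹` sequence,
and `ℓ¹` is incomplete for the weighted `ℓ²` norm; this is what produces the gap.
-/

set_option autoImplicit false

open Filter Topology
open scoped ZeroAtInfty

namespace Pool.Agent.Work.MP_700ccb_an

/-- The weights. -/
noncomputable def w (m : ℕ) : ℝ := 3 / 4 * (1 / 4) ^ m

lemma w_pos (m : ℕ) : 0 < w m := by unfold w; positivity

lemma sum_w (j : ℕ) : ∑ m ∈ Finset.range j, w m = 1 - (1 / 4) ^ j := by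
  induction j with
  | zero => simp
  | succ j ih => rw [Finset.sum_range_succ, ih, w, pow_succ]; ring

/-- The linear relation `x = -S u`. -/
def Rel (x : Y) (u : Y →L[ℝ] ℝ) : Prop :=
  ∀ m n, x (m, n + 1) - x (m, n) = w m * (u (e (m, n)) + u (e (m, n + 1)))

/-- The tail sums of the rows, expressed through `x` and `u`. -/
noncomputable def s (x : Y) (u : Y →L[ℝ] ℝ) (m n : ℕ) : ℝ :=
  (u (e (m, n)) - x (m, n) / w m) / 2

lemma Rel.sub {x y : Y} {u v : Y →L[ℝ] ℝ} (h : Rel x u) (h' : Rel y v) : Rel (x - y) (u - v) := by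
  intro m n
  have h1 := h m n
  have h2 := h' m n
  simp only [ZeroAtInftyContinuousMap.sub_apply, sub_apply]
  linarith

lemma s_sub (x y : Y) (u v : Y →L[ℝ] ℝ) (m n : ℕ) :
    s (x - y) (u - v) m n = s x u m n - s y v m n := by
  simp only [s, ZeroAtInftyContinuousMap.sub_apply, sub_apply]
  ring

lemma s_succ {x : Y} {u : Y →L[ℝ] ℝ} (h : Rel x u) (m n : ℕ) :
    s x u m (n + 1) = (- u (e (m, n)) - x (m, n) / w m) / 2 := by
  have h1 := h m n
  have hw := (w_pos m).ne'
  have h2 : x (m, n + 1) = x (m, n) + w m * (u (e (m, n)) + u (e (m, n + 1))) := by linarith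
  rw [s, h2]
  field_simp
  ring

lemma tendsto_row (m : ℕ) : Tendsto (fun n : ℕ => (m, n)) atTop cofinite := by
  rw [← Nat.cofinite_eq_atTop]
  exact Function.Injective.tendsto_cofinite (Prod.mk_right_injective m)

lemma tendsto_s (x : Y) (u : Y →L[ℝ] ℝ) (m : ℕ) : Tendsto (s x u m) atTop (𝓝 0) := by
  have h1 : Tendsto (fun n : ℕ => u (e (m, n))) atTop (𝓝 0) :=
    (summable_coeff u).tendsto_cofinite_zero.comp (tendsto_row m)
  have h2 : Tendsto (fun n : ℕ => x (m, n)) atTop (𝓝 0) :=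
    (tendsto_cofinite x).comp (tendsto_row m)
  have h3 := (h1.sub (h2.div_const (w m))).div_const 2
  simp only [zero_div, sub_zero] at h3
  exact h3

lemma hasSum_of_telescope {f g : ℕ → ℝ} (hf : Summable f) (hfg : ∀ n, f n = g n - g (n + 1))
    (hg : Tendsto g atTop (𝓝 0)) : HasSum f (g 0) := by
  have h1 := hf.hasSum.tendsto_sum_nat
  have h2 : Tendsto (fun N => ∑ n ∈ Finset.range N, f n) atTop (𝓝 (g 0)) := by
    have : (fun N => ∑ n ∈ Finset.range N, f n) = fun N => g 0 - g N := by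
      funext N
      rw [← Finset.sum_range_sub']
      exact Finset.sum_congr rfl (fun n _ => hfg n)
    rw [this]
    simpa using hg.const_sub (g 0)
  rw [← tendsto_nhds_unique h1 h2]
  exact hf.hasSum

lemma hasSum_key {x : Y} {u : Y →L[ℝ] ℝ} (h : Rel x u) :
    HasSum (fun m => -(w m * (s x u m 0) ^ 2)) (u x) := by
  refine (hasSum_pairing x u).prod_fiberwise (fun m => ?_)
  refine hasSum_of_telescope (g := fun n => -(w m * (s x u m n) ^ 2))
    ((hasSum_pairing x u).summable.prod_factor m) (fun n => ?_) ?_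
  · have hw := (w_pos m).ne'
    rw [s_succ h, s]
    field_simp
    ring
  · have := (((tendsto_s x u m).pow 2).const_mul (w m)).neg
    simpa using this

lemma pairing_le {x : Y} {u : Y →L[ℝ] ℝ} (h : Rel x u) (m : ℕ) :
    u x ≤ -(w m * (s x u m 0) ^ 2) := by
  have h1 := le_hasSum (hasSum_key h).neg m (fun j _ => by
    have := w_pos j
    simp only [neg_neg]; positivity)
  simp only [neg_neg] at h1
  linarith

lemma exists_ne_one {x : Y} {u : Y →L[ℝ] ℝ} (h : Rel x u) : ∃ m, s x u m 0 ≠ 1 := by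
  by_contra hcon
  push Not at hcon
  have h1 : HasSum (fun m => s x u m 0) (∑' i, u (e i)) := by
    refine (summable_coeff u).hasSum.prod_fiberwise (fun m => ?_)
    refine hasSum_of_telescope (g := s x u m) ((summable_coeff u).prod_factor m) (fun n => ?_)
      (tendsto_s x u m)
    rw [s_succ h, s]
    ring
  have h2 := h1.summable.tendsto_atTop_zero
  simp only [hcon] at h2
  exact one_ne_zero (tendsto_nhds_unique tendsto_const_nhds h2)

/-- The elements of the isotropic subspace. -/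
noncomputable def lx (m n : ℕ) : Y := (-w m) • (e (m, n) + e (m, n + 1))

/-- The elements of the isotropic subspace. -/
noncomputable def lu (m n : ℕ) : Y →L[ℝ] ℝ := ev (m, n + 1) - ev (m, n)

lemma lx_apply (m n : ℕ) (j : ℕ × ℕ) :
    lx m n j = -w m * ((if j = (m, n) then 1 else 0) + (if j = (m, n + 1) then 1 else 0)) := rfl

lemma lu_apply (m n : ℕ) (x : Y) : lu m n x = x (m, n + 1) - x (m, n) := rfl

lemma rel_l (m n : ℕ) (t : ℝ) : Rel (t • lx m n) (t • lu m n) := by
  intro m' n'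
  simp only [ZeroAtInftyContinuousMap.smul_apply, smul_apply, lx_apply,
    lu_apply, e_apply, smul_eq_mul, Prod.mk.injEq]
  by_cases hm : m' = m
  · subst hm
    simp only [true_and]
    split_ifs <;> first | omega | ring
  · have hm' : ¬ m = m' := fun h => hm h.symm
    simp [hm, hm']

lemma s_l (m n : ℕ) (t : ℝ) (m' : ℕ) : s (t • lx m n) (t • lu m n) m' 0 = 0 := by
  have hw := (w_pos m').ne'
  simp only [s, ZeroAtInftyContinuousMap.smul_apply, smul_apply, lx_apply,
    lu_apply, e_apply, smul_eq_mul, Prod.mk.injEq]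
  by_cases hm : m' = m
  · subst hm
    simp only [true_and]
    split_ifs <;> first | contradiction | omega | (field_simp; ring)
  · have hm' : ¬ m = m' := fun h => hm h.symm
    simp [hm, hm']

/-- The base points. -/
noncomputable def bx (j : ℕ) : Y := ∑ m ∈ Finset.range j, (-w m) • e (m, 0)

/-- The base points. -/
noncomputable def bu (j : ℕ) : Y →L[ℝ] ℝ := ∑ m ∈ Finset.range j, ev (m, 0)

lemma bx_apply (j m n : ℕ) : bx j (m, n) = if m < j ∧ n = 0 then -w m else 0 := by
  rw [bx, ← ev_apply, map_sum]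
  simp only [map_smul, ev_apply, e_apply, smul_eq_mul, mul_ite, mul_one, mul_zero, Prod.mk.injEq]
  by_cases hn : n = 0
  · simp [hn]
  · simp [hn]

lemma bu_apply (j m n : ℕ) : bu j (e (m, n)) = if m < j ∧ n = 0 then 1 else 0 := by
  rw [bu, sum_apply]
  simp only [ev_apply, e_apply, Prod.mk.injEq]
  by_cases hn : n = 0
  · simp [hn]
  · have hn' : ¬ 0 = n := fun h => hn h.symm
    simp [hn, hn']

lemma rel_b (j : ℕ) : Rel (bx j) (bu j) := by
  intro m n
  simp only [bx_apply, bu_apply]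
  by_cases h : m < j ∧ n = 0
  · simp [h]
  · simp [h]

lemma s_b (j m : ℕ) : s (bx j) (bu j) m 0 = if m < j then 1 else 0 := by
  have hw := (w_pos m).ne'
  simp only [s, bx_apply, bu_apply]
  by_cases h : m < j
  · simp only [h, and_self, if_true]; field_simp; ring
  · simp [h]

/-- The radii. -/
noncomputable def r (j : ℕ) : ℝ := 2 * (1 / 2) ^ j

lemma r_pos (j : ℕ) : 0 < r j := by unfold r; positivity

lemma tendsto_r : Tendsto r atTop (𝓝 0) := by
  have := (tendsto_pow_atTop_nhds_zero_of_lt_one (r := (1 / 2 : ℝ)) (by norm_num)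
    (by norm_num)).const_mul 2
  rw [mul_zero] at this
  exact this

lemma pairing_ge_aux {x : Y} {u : Y →L[ℝ] ℝ} (h : Rel x u) {j k : ℕ} (hkj : k ≤ j)
    (hs : ∀ m, (s x u m 0) ^ 2 = (if m < j then 1 else 0) - (if m < k then 1 else 0)) :
    -(r j - r k) ^ 2 ≤ u x := by
  have h1 : HasSum (fun m => -(w m * (s x u m 0) ^ 2))
      (-(∑ m ∈ Finset.range j, w m - ∑ m ∈ Finset.range k, w m)) := by
    have ha : ∀ i : ℕ, HasSum (fun m => w m * (if m < i then (1 : ℝ) else 0))
        (∑ m ∈ Finset.range i, w m) := by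
      intro i
      have := hasSum_sum_of_ne_finset_zero (f := fun m => w m * (if m < i then (1 : ℝ) else 0))
        (s := Finset.range i) (L := SummationFilter.unconditional ℕ)
        (fun b hb => by simp [Finset.mem_range] at hb; simp [not_lt.2 hb])
      convert this using 1
      exact Finset.sum_congr rfl (fun m hm => by simp [Finset.mem_range.1 hm])
    have := ((ha j).sub (ha k)).neg
    refine this.congr_fun ?_ 
    intro m
    rw [hs]; ring
  rw [(hasSum_key h).unique h1, sum_w, sum_w]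
  rcases hkj.eq_or_lt with rfl | hlt
  · simp
  · have hp : (0 : ℝ) < (1 / 2) ^ j := by positivity
    have hle : (1 / 2 : ℝ) ^ j ≤ (1 / 2) ^ (k + 1) :=
      pow_le_pow_of_le_one (by norm_num) (by norm_num) hlt
    have e1 : ∀ i : ℕ, (1 / 4 : ℝ) ^ i = ((1 / 2) ^ i) ^ 2 := by
      intro i; rw [← pow_mul, mul_comm, pow_mul]; norm_num
    rw [e1, e1, r, r]
    rw [pow_succ] at hle
    nlinarith

lemma pairing_ge {x y : Y} {u v : Y →L[ℝ] ℝ} (hx : Rel x u) (hy : Rel y v) {j k : ℕ}
    (hj : ∀ m, s x u m 0 = if m < j then 1 else 0) (hk : ∀ m, s y v m 0 = if m < k then 1 else 0) :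
    -(r j - r k) ^ 2 ≤ (u - v) (x - y) := by
  rcases le_total k j with h | h
  · refine pairing_ge_aux (hx.sub hy) h (fun m => ?_)
    rw [s_sub, hj, hk]
    split_ifs <;> first | omega | norm_num
  · have : -(r j - r k) ^ 2 = -(r k - r j) ^ 2 := by ring
    rw [this]
    refine pairing_ge_aux (hx.sub hy) h (fun m => ?_)
    rw [s_sub, hj, hk]
    split_ifs <;> first | omega | norm_num

end Pool.Agent.Work.MP_700ccb_an
end

-- merged part: Pool.Agent.Work.MP_700ccb_an.Gap
section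
/-!
The monotone set `G` in `X × X*`, `X = ℝ × c₀(ℕ × ℕ)`, all of whose monotone extensions have
domain inside `{ξ ^ 2 > 1}`, and the abstract argument that turns this into a counterexample.
-/

set_option autoImplicit false

open Filter Topology
open scoped ZeroAtInfty

namespace Pool.Agent.Work.MP_700ccb_an

section abstract

variable {E : Type} [NormedAddCommGroup E] [NormedSpace ℝ E]

/-- Monotone subsets of `E × E*`. -/
def IsMono (S : Set (E × (E →L[ℝ] ℝ))) : Prop :=
  ∀ p ∈ S, ∀ q ∈ S, 0 ≤ (p.2 - q.2) (p.1 - q.1)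

lemma pairing_swap (p q : E × (E →L[ℝ] ℝ)) :
    (q.2 - p.2) (q.1 - p.1) = (p.2 - q.2) (p.1 - q.1) := by
  simp only [sub_apply, map_sub]; ring

lemma exists_maximal {G : Set (E × (E →L[ℝ] ℝ))} (hG : IsMono G) :
    ∃ M : Set (E × (E →L[ℝ] ℝ)), G ⊆ M ∧ IsMono M ∧
      ∀ p, (∀ q ∈ M, 0 ≤ (p.2 - q.2) (p.1 - q.1)) → p ∈ M := by
  obtain ⟨M, hGM, hM⟩ := zorn_subset_nonempty {S | IsMono S} (fun c hc hchain _ => by
    refine ⟨⋃₀ c, ?_, fun S hS => Set.subset_sUnion_of_mem hS⟩
    rintro p ⟨S, hS, hp⟩ q ⟨T, hT, hq⟩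
    rcases hchain.total hS hT with h | h
    · exact hc hT p (h hp) q hq
    · exact hc hS p hp q (h hq)) G hG
  refine ⟨M, hGM, hM.prop, fun p hp => ?_⟩
  have h1 : IsMono (insert p M) := by
    rintro a (rfl | ha) b (rfl | hb)
    · simp
    · exact hp b hb
    · rw [pairing_swap]; exact hp a ha
    · exact hM.prop a ha b hb
  exact hM.le_of_ge h1 (Set.subset_insert p M) (Set.mem_insert p M)

end abstract

/-- The Banach space of the example. -/
abbrev X : Type := ℝ × Y

/-- The functional on `X` with components `η` and `u`. -/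
noncomputable def mk (η : ℝ) (u : Y →L[ℝ] ℝ) : X →L[ℝ] ℝ :=
  η • ContinuousLinearMap.fst ℝ ℝ Y + u.comp (ContinuousLinearMap.snd ℝ ℝ Y)

lemma mk_apply (η : ℝ) (u : Y →L[ℝ] ℝ) (ξ : ℝ) (x : Y) : mk η u (ξ, x) = η * ξ + u x := rfl

lemma exists_mk (U : X →L[ℝ] ℝ) : ∃ η u, U = mk η u := by
  refine ⟨U (1, 0), U.comp (ContinuousLinearMap.inr ℝ ℝ Y), ?_⟩
  refine ContinuousLinearMap.ext (fun p => ?_)
  obtain ⟨ξ, x⟩ := p
  rw [mk_apply]
  have : ((ξ, x) : X) = ξ • ((1, 0) : X) + (0, x) := by simp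
  rw [this, map_add, map_smul]
  simp [mul_comm]

lemma mk_pairing (η η' ξ ξ' : ℝ) (u v : Y →L[ℝ] ℝ) (x y : Y) :
    (mk η u - mk η' v) (((ξ, x) : X) - (ξ', y)) = (η - η') * (ξ - ξ') + (u - v) (x - y) := by
  rw [Prod.mk_sub_mk, sub_apply, mk_apply, mk_apply, sub_apply]; ring

/-- The monotone set. -/
def G : Set (X × (X →L[ℝ] ℝ)) :=
  {p | ∃ (ε : ℝ) (j : ℕ) (x : Y) (u : Y →L[ℝ] ℝ), (ε = 1 ∨ ε = -1) ∧ Rel x u ∧
    (∀ m, s x u m 0 = if m < j then 1 else 0) ∧ p = ((ε * (1 + r j), x), mk (ε * r j) u)}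

lemma G_mono : IsMono G := by
  rintro p ⟨ε, j, x, u, hε, hx, hs, rfl⟩ q ⟨ε', k, y, v, hε', hy, hs', rfl⟩
  simp only
  rw [mk_pairing]
  have h1 := pairing_ge hx hy hs hs'
  have hj := r_pos j
  have hk := r_pos k
  rcases hε with rfl | rfl <;> rcases hε' with rfl | rfl <;> nlinarith [mul_pos hj hk]

lemma eq_zero_of_affine {a b : ℝ} (h : ∀ t : ℝ, 0 ≤ a + t * b) : b = 0 := by
  by_contra hb
  have := h (-(a + 1) / b)
  rw [div_mul_cancel₀ _ hb] at this
  linarith

lemma gap {p : X × (X →L[ℝ] ℝ)} (hp : ∀ q ∈ G, 0 ≤ (p.2 - q.2) (p.1 - q.1)) :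
    1 < p.1.1 ^ 2 := by
  obtain ⟨⟨ξ, x⟩, U⟩ := p
  obtain ⟨η, u, rfl⟩ := exists_mk U
  simp only at hp ⊢
  have hrel : Rel x u := by
    intro m n
    have h0 : lu m n (lx m n) = 0 := by
      simp only [lu_apply, lx_apply, Prod.mk.injEq]
      simp
    have h1 : ∀ t : ℝ, 0 ≤ ((η - 1 * r 0) * (ξ - 1 * (1 + r 0)) + u x) +
        t * (-(u (lx m n) + lu m n x)) := by
      intro t
      have h := hp _ ⟨1, 0, t • lx m n, t • lu m n, Or.inl rfl, rel_l m n t,
        fun m' => by simpa using s_l m n t m', rfl⟩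
      simp only at h
      rw [mk_pairing] at h
      simp only [sub_apply, map_sub, map_smul, smul_apply, smul_eq_mul, h0] at h
      linarith
    have h2 := eq_zero_of_affine h1
    rw [lu_apply, lx, map_smul, map_add, smul_eq_mul] at h2
    linarith
  obtain ⟨m, hm⟩ := exists_ne_one hrel
  have hδ : 0 < w m * (s x u m 0 - 1) ^ 2 := by
    have := w_pos m
    have := sub_ne_zero.2 hm
    positivity
  have key : ∀ ε : ℝ, (ε = 1 ∨ ε = -1) → w m * (s x u m 0 - 1) ^ 2 ≤ η * (ξ - ε) := by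
    intro ε hε
    have hlim : Tendsto (fun j => (η - ε * r j) * (ξ - ε * (1 + r j))) atTop
        (𝓝 ((η - ε * 0) * (ξ - ε * (1 + 0)))) :=
      ((tendsto_r.const_mul ε).const_sub η).mul
        (((tendsto_r.const_add 1).const_mul ε).const_sub ξ)
    have h3 : w m * (s x u m 0 - 1) ^ 2 ≤ (η - ε * 0) * (ξ - ε * (1 + 0)) := by
      refine ge_of_tendsto hlim ?_
      filter_upwards [eventually_gt_atTop m] with j hj
      have h := hp _ ⟨ε, j, bx j, bu j, hε, rel_b j, s_b j, rfl⟩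
      simp only at h
      rw [mk_pairing] at h
      have h4 := pairing_le (hrel.sub (rel_b j)) m
      rw [s_sub, s_b, if_pos hj] at h4
      linarith
    simpa using h3
  have k1 := key 1 (Or.inl rfl)
  have k2 := key (-1) (Or.inr rfl)
  have k3 : 0 < (η * (ξ - 1)) * (η * (ξ - -1)) := mul_pos (hδ.trans_le k1) (hδ.trans_le k2)
  by_contra hcon
  push Not at hcon
  nlinarith [sq_nonneg η]

lemma rel_zero : Rel 0 0 := by intro m n; simp

lemma mem_G (ε : ℝ) (hε : ε = 1 ∨ ε = -1) : (((ε * 3, 0) : X), mk (ε * 2) 0) ∈ G :=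
  ⟨ε, 0, 0, 0, hε, rel_zero, fun m => by simp [s], by norm_num [r]⟩

/-- The rank one operator `(ξ, x) ↦ (6 ξ, 0)`. -/
noncomputable def A : X →L[ℝ] (X →L[ℝ] ℝ) :=
  (ContinuousLinearMap.fst ℝ ℝ Y).smulRight ((6 : ℝ) • ContinuousLinearMap.fst ℝ ℝ Y)

lemma A_apply (p q : X) : A p q = p.1 * (6 * q.1) := rfl

/-- A maximally monotone set whose domain misses the slab `ξ ^ 2 ≤ 1`, while `(0, 0)` is
monotonically related to the graph of `A + B`. -/
theorem exists_example : ∃ M : Set (X × (X →L[ℝ] ℝ)), IsMono M ∧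
    (∀ p, (∀ q ∈ M, 0 ≤ (p.2 - q.2) (p.1 - q.1)) → p ∈ M) ∧
    (∀ p ∈ M, 1 < p.1.1 ^ 2) ∧
    (∀ q ∈ M, 0 ≤ (0 - (A q.1 + q.2)) (0 - q.1)) := by
  obtain ⟨M, hGM, hM, hmax⟩ := exists_maximal G_mono
  have hgap : ∀ p ∈ M, 1 < p.1.1 ^ 2 := fun p hp => gap (fun q hq => hM p hp q (hGM hq))
  refine ⟨M, hM, hmax, hgap, fun q hq => ?_⟩
  have h0 := hgap q hq
  have h1 := hM q hq _ (hGM (mem_G 1 (Or.inl rfl)))
  have h2 := hM q hq _ (hGM (mem_G (-1) (Or.inr rfl)))
  obtain ⟨⟨ξ, x⟩, U⟩ := q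
  obtain ⟨η, u, rfl⟩ := exists_mk U
  simp only at h0 h1 h2 ⊢
  rw [mk_pairing] at h1 h2
  simp only [sub_zero, sub_apply, zero_apply] at h1 h2
  simp only [sub_apply, zero_apply, map_sub, map_zero, add_apply, A_apply, mk_apply]
  nlinarith

end Pool.Agent.Work.MP_700ccb_an
end
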