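import Pool.Agent.Work.MP_700ccb_an.Gap

/-!
Transfer of the example from `ℝ × c₀(ℕ × ℕ)` to `c₀(ℕ)`.
-/

set_option autoImplicit false

open Filter Topology
open scoped ZeroAtInfty

namespace Pool.Agent.Work.MP_700ccb_an

lemma tendsto_cofinite' (x : C₀(ℕ, ℝ)) : Tendsto x cofinite (𝓝 0) := by
  have h := zero_at_infty x
  rwa [cocompact_eq_cofinite] at h

lemma abs_apply_le' (x : C₀(ℕ, ℝ)) (i : ℕ) : |x i| ≤ ‖x‖ := by
  have h := BoundedContinuousFunction.norm_coe_le_norm x.toBCF i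
  rw [ZeroAtInftyContinuousMap.norm_toBCF_eq_norm] at h
  simpa using h

/-- The tail of a null sequence, arranged as an array. -/
noncomputable def tl (x : C₀(ℕ, ℝ)) : Y where
  toFun := fun i => x (Nat.pair i.1 i.2 + 1)
  continuous_toFun := continuous_of_discreteTopology
  zero_at_infty' := by
    rw [cocompact_eq_cofinite]
    refine (tendsto_cofinite' x).comp (Function.Injective.tendsto_cofinite ?_)
    rintro ⟨a, b⟩ ⟨c, d⟩ h
    simpa using h

/-- A number and an array, arranged as a null sequence. -/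
noncomputable def cns (p : X) : C₀(ℕ, ℝ) where
  toFun := fun n => Nat.casesOn n p.1 (fun k => p.2 (Nat.unpair k))
  continuous_toFun := continuous_of_discreteTopology
  zero_at_infty' := by
    rw [cocompact_eq_cofinite, Nat.cofinite_eq_atTop, ← tendsto_add_atTop_iff_nat 1,
      ← Nat.cofinite_eq_atTop]
    exact (tendsto_cofinite p.2).comp
      (Function.Injective.tendsto_cofinite Nat.pairEquiv.symm.injective)

/-- The linear bijection. -/
noncomputable def lin : C₀(ℕ, ℝ) ≃ₗ[ℝ] X where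
  toFun := fun x => (x 0, tl x)
  map_add' := fun _ _ => rfl
  map_smul' := fun _ _ => rfl
  invFun := cns
  left_inv := fun x => by
    ext n
    cases n with
    | zero => rfl
    | succ k => exact congrArg (fun m => x (m + 1)) (Nat.pair_unpair k)
  right_inv := fun p => by
    refine Prod.ext rfl ?_
    ext i
    exact congrArg p.2 (Nat.unpair_pair i.1 i.2)

/-- The isomorphism. -/
noncomputable def iso : C₀(ℕ, ℝ) ≃L[ℝ] X :=
  ContinuousLinearEquiv.ofBijective
    (lin.toLinearMap.mkContinuous 1 (fun x => by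
      rw [one_mul]
      exact max_le (abs_apply_le' x 0) (norm_le_of _ (norm_nonneg _) (fun _ => abs_apply_le' x _))))
    (LinearMap.ker_eq_bot.2 lin.injective) (LinearMap.range_eq_top.2 lin.surjective)

lemma iso_fst (x : C₀(ℕ, ℝ)) : (iso x).1 = x 0 := rfl

/-- The first coordinate. -/
noncomputable def ev0 : C₀(ℕ, ℝ) →L[ℝ] ℝ :=
  (ContinuousLinearMap.fst ℝ ℝ Y).comp (iso : C₀(ℕ, ℝ) →L[ℝ] X)

lemma ev0_apply (x : C₀(ℕ, ℝ)) : ev0 x = x 0 := rfl

theorem exists_example_c0 : ∃ M : Set (C₀(ℕ, ℝ) × (C₀(ℕ, ℝ) →L[ℝ] ℝ)), IsMono M ∧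
    (∀ p, (∀ q ∈ M, 0 ≤ (p.2 - q.2) (p.1 - q.1)) → p ∈ M) ∧
    (∀ p ∈ M, 1 < p.1 0 ^ 2) ∧
    (∀ q ∈ M, 0 ≤ q.1 0 * q.1 0 + q.2 q.1) := by
  obtain ⟨M, hM, hmax, hgap, h0⟩ := exists_example
  let F : C₀(ℕ, ℝ) × (C₀(ℕ, ℝ) →L[ℝ] ℝ) → X × (X →L[ℝ] ℝ) := fun p =>
    (iso p.1, (6 : ℝ) • p.2.comp (iso.symm : X →L[ℝ] C₀(ℕ, ℝ)))
  have hF : ∀ p q, ((F p).2 - (F q).2) ((F p).1 - (F q).1) = 6 * (p.2 - q.2) (p.1 - q.1) := by
    intro p q
    simp only [F, sub_apply, map_sub, smul_apply, ContinuousLinearMap.comp_apply,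
      ContinuousLinearEquiv.coe_coe, ContinuousLinearEquiv.symm_apply_apply, smul_eq_mul]
    ring
  have hsurj : Function.Surjective F := by
    rintro ⟨y, V⟩
    refine ⟨(iso.symm y, (1 / 6 : ℝ) • V.comp (iso : C₀(ℕ, ℝ) →L[ℝ] X)), Prod.ext (by simp [F]) ?_⟩
    refine ContinuousLinearMap.ext (fun z => ?_)
    simp [F]
  refine ⟨F ⁻¹' M, fun p hp q hq => ?_, fun p hp => hmax _ (fun q hq => ?_),
    fun p hp => hgap _ hp, fun q hq => ?_⟩
  · have := hM _ hp _ hq
    rw [hF] at this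
    linarith
  · obtain ⟨q, rfl⟩ := hsurj q
    have := hp q hq
    rw [hF]
    linarith
  · have := h0 _ hq
    simp only [F, map_sub, map_zero, sub_apply, zero_apply, add_apply, A_apply, iso_fst, smul_apply,
      ContinuousLinearMap.comp_apply, ContinuousLinearEquiv.coe_coe,
      ContinuousLinearEquiv.symm_apply_apply, smul_eq_mul] at this
    linarith

end Pool.Agent.Work.MP_700ccb_an
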